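import Pool.Agent.K1H12.SW.Stm

set_option autoImplicit false

/-!
# Piece BUR of the project HE: products of permutation characters
-/

namespace Pool.Agent.K1H78.HE

open Pool.Agent.K1H12.SW

/-- `f` is the permutation character of a finite `Q`-set with stabilizers in the family `𝓗` -/
def PC (Q : Type) [Group Q] (𝓗 : Subgroup Q → Prop) (f : Q → ℕ) : Prop :=
  ∃ (X : Type) (_ : Finite X) (_ : MulAction Q X), (∀ x : X, 𝓗 (MulAction.stabilizer Q x)) ∧
    ∀ q : Q, Nat.card (MulAction.fixedBy X q) = f q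

section

variable {Q : Type} [Group Q] {𝓗 : Subgroup Q → Prop}

theorem PC.mono {𝓚 : Subgroup Q → Prop} (h : ∀ H, 𝓗 H → 𝓚 H) {f : Q → ℕ} (hf : PC Q 𝓗 f) :
    PC Q 𝓚 f := by
  obtain ⟨X, i, a, h1, h2⟩ := hf
  exact ⟨X, i, a, fun x => h _ (h1 x), h2⟩

theorem PC.zero : PC Q 𝓗 (fun _ => 0) := by
  refine ⟨PEmpty, inferInstance, { smul := fun _ x => x.elim, one_smul := fun x => x.elim, mul_smul := fun _ _ x => x.elim }, fun x => x.elim, fun q => ?_⟩
  exact Nat.card_eq_zero.mpr (Or.inl ⟨fun x => x.1.elim⟩)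

/-- the disjoint union of two `Q`-sets -/
@[reducible] def sumAct (X Y : Type) [MulAction Q X] [MulAction Q Y] : MulAction Q (X ⊕ Y) where
  smul q := Sum.map (fun x => q • x) (fun y => q • y)
  one_smul := by
    rintro (x | y)
    · exact congrArg Sum.inl (one_smul Q x)
    · exact congrArg Sum.inr (one_smul Q y)
  mul_smul := by
    rintro a b (x | y)
    · exact congrArg Sum.inl (mul_smul a b x)
    · exact congrArg Sum.inr (mul_smul a b y)

theorem PC.add {f g : Q → ℕ} (hf : PC Q 𝓗 f) (hg : PC Q 𝓗 g) : PC Q 𝓗 (fun q => f q + g q) := by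
  obtain ⟨X, iX, aX, hX, hX'⟩ := hf
  obtain ⟨Y, iY, aY, hY, hY'⟩ := hg
  refine ⟨X ⊕ Y, inferInstance, sumAct X Y, ?_, fun q => ?_⟩
  · rintro (x | y)
    · have : @MulAction.stabilizer Q (X ⊕ Y) _ (sumAct X Y) (Sum.inl x) =
          MulAction.stabilizer Q x := by
        ext q
        exact ⟨fun h => Sum.inl.inj h, fun h => congrArg Sum.inl h⟩
      rw [this]
      exact hX x
    · have : @MulAction.stabilizer Q (X ⊕ Y) _ (sumAct X Y) (Sum.inr y) =
          MulAction.stabilizer Q y := by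
        ext q
        exact ⟨fun h => Sum.inr.inj h, fun h => congrArg Sum.inr h⟩
      rw [this]
      exact hY y
  · change _ = f q + g q
    rw [← hX' q, ← hY' q, ← Nat.card_sum]
    refine Nat.card_congr ?_
    refine
      { toFun := fun z => match z with
          | ⟨Sum.inl x, h⟩ => Sum.inl ⟨x, Sum.inl.inj h⟩
          | ⟨Sum.inr y, h⟩ => Sum.inr ⟨y, Sum.inr.inj h⟩
        invFun := fun z => match z with
          | Sum.inl ⟨x, h⟩ => ⟨Sum.inl x, congrArg Sum.inl h⟩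
          | Sum.inr ⟨y, h⟩ => ⟨Sum.inr y, congrArg Sum.inr h⟩
        left_inv := ?_
        right_inv := ?_ }
    · rintro ⟨x | y, h⟩ <;> rfl
    · rintro (⟨x, h⟩ | ⟨y, h⟩) <;> rfl

theorem PC.mul (hsub : ∀ H K : Subgroup Q, 𝓗 H → K ≤ H → 𝓗 K) {f g : Q → ℕ} (hf : PC Q 𝓗 f)
    {𝓚 : Subgroup Q → Prop} (hg : PC Q 𝓚 g) : PC Q 𝓗 (fun q => f q * g q) := by
  obtain ⟨X, iX, aX, hX, hX'⟩ := hf
  obtain ⟨Y, iY, aY, hY, hY'⟩ := hg
  refine ⟨X × Y, inferInstance, inferInstance, ?_, fun q => ?_⟩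
  · rintro ⟨x, y⟩
    refine hsub _ _ (hX x) fun q hq => ?_
    exact congrArg Prod.fst (MulAction.mem_stabilizer_iff.mp hq)
  · change _ = f q * g q
    rw [← hX' q, ← hY' q, ← Nat.card_prod]
    refine Nat.card_congr ?_
    refine
      { toFun := fun z => (⟨z.1.1, congrArg Prod.fst (show q • z.1 = z.1 from z.2)⟩,
          ⟨z.1.2, congrArg Prod.snd (show q • z.1 = z.1 from z.2)⟩)
        invFun := fun z => ⟨(z.1.1, z.2.1), Prod.ext z.1.2 z.2.2⟩
        left_inv := fun z => rfl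
        right_inv := fun z => rfl }

theorem PC.smul (n : ℕ) {f : Q → ℕ} (hf : PC Q 𝓗 f) : PC Q 𝓗 (fun q => n * f q) := by
  induction n with
  | zero => simpa using (PC.zero (Q := Q) (𝓗 := 𝓗))
  | succ k ih =>
      have := ih.add hf
      simpa [add_mul] using this

theorem indM_iff {m : ℕ} : IndM Q 𝓗 m ↔ ∃ f g : Q → ℕ, PC Q 𝓗 f ∧ PC Q 𝓗 g ∧
    ∀ q, m + f q = g q := by
  constructor
  · rintro ⟨X, Y, iX, iY, aX, aY, h1, h2, h3⟩
    exact ⟨fun q => Nat.card (MulAction.fixedBy X q), fun q => Nat.card (MulAction.fixedBy Y q),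
      ⟨X, iX, aX, h1, fun _ => rfl⟩, ⟨Y, iY, aY, h2, fun _ => rfl⟩, h3⟩
  · rintro ⟨f, g, ⟨X, iX, aX, h1, h1'⟩, ⟨Y, iY, aY, h2, h2'⟩, h3⟩
    exact ⟨X, Y, iX, iY, aX, aY, h1, h2, fun q => by rw [h1', h2']; exact h3 q⟩

end

theorem t_BUR : S_BUR := by
  intro Q _ _ 𝓗 n hsub hn
  classical
  have key : ∀ s : Finset Q, ∃ f g : Q → ℕ, PC Q 𝓗 f ∧ PC Q 𝓗 g ∧
      ∀ q ∈ s, (∏ a ∈ s, n a) + f q = g q := by
    intro s
    induction s using Finset.induction_on with
    | empty => exact ⟨_, _, PC.zero, PC.zero, fun q hq => absurd hq (Finset.notMem_empty q)⟩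
    | insert a s ha ih =>
        obtain ⟨f, g, hf, hg, hfg⟩ := ih
        obtain ⟨Z, iZ, aZ, hZ, hZ'⟩ := hn a
        set z : Q → ℕ := fun q => Nat.card (MulAction.fixedBy Z q) with hz
        have hzP : PC Q 𝓗 z := ⟨Z, iZ, aZ, hZ, fun _ => rfl⟩
        refine ⟨_, _, (hf.smul (n a)).add (hg.mul hsub hzP),
          ((hg.smul (n a)).add (hzP.smul (∏ a ∈ s, n a))).add (hf.mul hsub hzP), ?_⟩
        intro q hq
        rw [Finset.prod_insert ha]
        rcases Finset.mem_insert.mp hq with rfl | hq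
        · have : z q = n q := hZ'
          simp only [this]
          ring
        · have := hfg q hq
          simp only [← this]
          ring
  obtain ⟨f, g, hf, hg, hfg⟩ := key Finset.univ
  exact indM_iff.mpr ⟨f, g, hf, hg, fun q => hfg q (Finset.mem_univ q)⟩

end Pool.Agent.K1H78.HE
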