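import Pool.Agent.K1H78.HE.Bur

set_option autoImplicit false

/-!
# Piece HE of the project HE: hyperelementary induction for finite groups
-/

namespace Pool.Agent.K1H78.HE

open Pool.Agent.K1H12.SW

theorem hyp_sub {Q : Type} [Group Q] {p : ℕ} (hp : p.Prime) (H K : Subgroup Q) (h : Hyp p H)
    (hK : K ≤ H) : Hyp p K := by
  obtain ⟨C, hC, hcyc, hcop, k, hk⟩ := h
  refine ⟨C.comap (Subgroup.inclusion hK), hC.comap _, ?_, ?_, ?_⟩
  · exact isCyclic_of_injective ((Subgroup.inclusion hK).subgroupComap C) (by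
      intro a b hab
      have h1 : (Subgroup.inclusion hK) a.1 = (Subgroup.inclusion hK) b.1 :=
        congrArg Subtype.val hab
      exact Subtype.ext (Subgroup.inclusion_injective hK h1))
  · refine Nat.Coprime.coprime_dvd_left ?_ hcop
    exact Subgroup.card_dvd_of_injective ((Subgroup.inclusion hK).subgroupComap C) (by
      intro a b hab
      have h1 : (Subgroup.inclusion hK) a.1 = (Subgroup.inclusion hK) b.1 :=
        congrArg Subtype.val hab
      exact Subtype.ext (Subgroup.inclusion_injective hK h1))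
  · rw [Subgroup.index_comap]
    have h1 : C.relIndex (Subgroup.inclusion hK).range ∣ C.index :=
      Subgroup.relIndex_dvd_index_of_normal _ _
    rw [hk] at h1
    obtain ⟨j, -, hj⟩ := (Nat.dvd_prime_pow hp).mp h1
    exact ⟨j, hj⟩

theorem t_HE : S_HE := by
  intro hB hS Q _ _
  classical
  haveI := Fintype.ofFinite Q
  have h1 : ∀ p : ℕ, p.Prime → ∃ m : ℕ, ¬ p ∣ m ∧ IndM Q (fun H => Hyp p H) m := by
    intro p hp
    choose X iX aX hX hX' using fun q => hS Q p hp q
    refine ⟨∏ q : Q, Nat.card (MulAction.fixedBy (X q) q), ?_, ?_⟩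
    · rw [Prime.dvd_finsetProd_iff hp.prime]
      rintro ⟨q, -, hq⟩
      exact hX' q hq
    · exact hB Q (fun H => Hyp p H) _ (fun H K h hK => hyp_sub hp H K h hK)
        (fun q => ⟨X q, iX q, aX q, hX q, rfl⟩)
  refine ⟨h1, ?_, ?_⟩
  · set 𝓗 : Subgroup Q → Prop := fun H => ∃ p : ℕ, p.Prime ∧ Hyp p H with h𝓗
    let I : AddSubgroup ℤ :=
      { carrier := {z | ∃ f g : Q → ℕ, PC Q 𝓗 f ∧ PC Q 𝓗 g ∧ ∀ q, z + (f q : ℤ) = g q}
        zero_mem' := ⟨_, _, PC.zero, PC.zero, fun q => by simp⟩
        add_mem' := by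
          rintro a b ⟨f, g, hf, hg, h⟩ ⟨f', g', hf', hg', h'⟩
          refine ⟨_, _, hf.add hf', hg.add hg', fun q => ?_⟩
          have := h q
          have := h' q
          push_cast
          linarith
        neg_mem' := by
          rintro a ⟨f, g, hf, hg, h⟩
          exact ⟨g, f, hg, hf, fun q => by have := h q; linarith⟩ }
    have hI : ∀ m : ℕ, (m : ℤ) ∈ I → IndM Q 𝓗 m := by
      rintro m ⟨f, g, hf, hg, h⟩
      refine indM_iff.mpr ⟨f, g, hf, hg, fun q => ?_⟩
      exact_mod_cast h q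
    apply hI
    obtain ⟨d, hd⟩ := Int.subgroup_cyclic I
    have hd1 : ∀ p : ℕ, p.Prime → ¬ p ∣ d.natAbs := by
      intro p hp hpd
      obtain ⟨m, hm, hI'⟩ := h1 p hp
      obtain ⟨f, g, hf, hg, h⟩ := indM_iff.mp hI'
      have : (m : ℤ) ∈ I := ⟨f, g, hf.mono (fun H hH => ⟨p, hp, hH⟩),
        hg.mono (fun H hH => ⟨p, hp, hH⟩), fun q => by exact_mod_cast h q⟩
      rw [hd, AddSubgroup.mem_closure_singleton] at this
      obtain ⟨k, hk⟩ := this
      apply hm
      have h2 : (p : ℤ) ∣ d := Int.natCast_dvd.mpr hpd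
      have h3 : (p : ℤ) ∣ (m : ℤ) := by
        rw [← hk, smul_eq_mul]
        exact Dvd.dvd.mul_left h2 k
      exact_mod_cast h3
    have hd2 : d.natAbs = 1 := by
      by_contra hne
      obtain ⟨p, hp, hpd⟩ := Nat.exists_prime_and_dvd hne
      exact hd1 p hp hpd
    rw [hd, AddSubgroup.mem_closure_singleton]
    rcases Int.natAbs_eq_iff.mp hd2 with h | h
    · exact ⟨1, by simp [h]⟩
    · exact ⟨-1, by simp [h]⟩
  · have h3 : ∀ q : Q, ∃ (X : Type) (_ : Finite X) (_ : MulAction Q X),
        (∀ x : X, IsCyclic (MulAction.stabilizer Q x)) ∧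
          0 < Nat.card (MulAction.fixedBy X q) := by
      intro q
      refine ⟨Q ⧸ Subgroup.zpowers q, inferInstance, inferInstance, ?_, ?_⟩
      · intro x
        obtain ⟨g, rfl⟩ := QuotientGroup.mk_surjective x
        have e : (QuotientGroup.mk g : Q ⧸ Subgroup.zpowers q) =
            g • ((1 : Q) : Q ⧸ Subgroup.zpowers q) := by
          change _ = ((g * 1 : Q) : Q ⧸ Subgroup.zpowers q)
          rw [mul_one]
        rw [e, MulAction.stabilizer_smul_eq_stabilizer_map_conj, MulAction.stabilizer_quotient]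
        exact isCyclic_of_injective
          ((Subgroup.zpowers q).equivMapOfInjective (MulAut.conj g).toMonoidHom
            (MulAut.conj g).injective).symm.toMonoidHom (MulEquiv.injective _)
      · haveI : Nonempty (MulAction.fixedBy (Q ⧸ Subgroup.zpowers q) q) :=
          ⟨⟨((1 : Q) : Q ⧸ Subgroup.zpowers q), by
            change ((q * 1 : Q) : Q ⧸ Subgroup.zpowers q) = ((1 : Q) : Q ⧸ Subgroup.zpowers q)
            rw [QuotientGroup.eq]
            simp⟩⟩
        exact Nat.card_pos
    choose X iX aX hX hX' using h3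
    refine ⟨∏ q : Q, Nat.card (MulAction.fixedBy (X q) q),
      Finset.prod_pos fun q _ => hX' q, ?_⟩
    exact hB Q (fun H => IsCyclic H) _
      (fun H K (h : IsCyclic H) hK => isCyclic_of_injective (Subgroup.inclusion hK)
        (Subgroup.inclusion_injective hK))
      (fun q => ⟨X q, iX q, aX q, hX q, rfl⟩)

end Pool.Agent.K1H78.HE
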